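import Mathlib

set_option autoImplicit false

namespace Pool.Agent.Lib_MP_626dc7_co

open Finset

section Count

variable {α : Type*} [Fintype α] [DecidableEq α]

/-- Quadruples `((a,b),(c,d))` whose underlying set is in `F`. -/
def tup (F : Finset (Finset α)) : Finset ((α × α) × (α × α)) :=
  Finset.univ.filter fun t => ({t.1.1, t.1.2, t.2.1, t.2.2} : Finset α) ∈ F

theorem mem_tup {F : Finset (Finset α)} {t : (α × α) × (α × α)} :
    t ∈ tup F ↔ ({t.1.1, t.1.2, t.2.1, t.2.2} : Finset α) ∈ F := by
  simp [tup]

theorem fiber_le (F : Finset (Finset α)) (hF : ∀ A ∈ F, A.card = 4) (D : ℕ)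
    (hD : ∀ a b : α, a ≠ b → (F.filter fun A => {a, b} ⊆ A).card ≤ D) (p : α × α) :
    ((tup F).filter fun t => t.1 = p).card ≤ 2 * D := by
  obtain ⟨a, b⟩ := p
  by_cases hab : a = b
  · subst hab
    have : ((tup F).filter fun t => t.1 = (a, a)) = ∅ := by
      rw [Finset.eq_empty_iff_forall_notMem]
      rintro ⟨⟨x, y⟩, ⟨c, d⟩⟩ ht
      rw [Finset.mem_filter, mem_tup] at ht
      obtain ⟨h1, h2⟩ := ht
      simp only [Prod.mk.injEq] at h2
      simp only [h2.1, h2.2, Finset.insert_idem] at h1
      have h3 := hF _ h1
      have := Finset.card_le_three (a := a) (b := c) (c := d)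
      omega
    rw [this]
    simp
  · have h1 : ((tup F).filter fun t => t.1 = (a, b)).card ≤
        2 * (F.filter fun A => {a, b} ⊆ A).card := by
      apply Finset.card_le_mul_card_image_of_maps_to
        (f := fun t : (α × α) × (α × α) => ({t.1.1, t.1.2, t.2.1, t.2.2} : Finset α))
      · rintro ⟨⟨x, y⟩, ⟨c, d⟩⟩ ht
        rw [Finset.mem_filter, mem_tup] at ht
        obtain ⟨h1, h2⟩ := ht
        simp only [Prod.mk.injEq] at h2
        obtain ⟨rfl, rfl⟩ := h2
        rw [Finset.mem_filter]
        refine ⟨h1, ?_⟩
        intro z hz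
        simp only [Finset.mem_insert, Finset.mem_singleton] at hz ⊢
        tauto
      · intro A hA
        rw [Finset.mem_filter] at hA
        obtain ⟨hAF, habA⟩ := hA
        have hA4 := hF A hAF
        have hcard : (A \ {a, b}).card = 2 := by
          rw [Finset.card_sdiff_of_subset habA, hA4, Finset.card_pair hab]
        have hsub : (((tup F).filter fun t => t.1 = (a, b)).filter
            fun t : (α × α) × (α × α) =>
              ({t.1.1, t.1.2, t.2.1, t.2.2} : Finset α) = A) ⊆
            ((A \ {a, b}).offDiag).image fun q => ((a, b), q) := by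
          rintro ⟨⟨x, y⟩, ⟨c, d⟩⟩ ht
          rw [Finset.mem_filter, Finset.mem_filter, mem_tup] at ht
          obtain ⟨⟨h1, h2⟩, h3⟩ := ht
          simp only [Prod.mk.injEq] at h2
          obtain ⟨rfl, rfl⟩ := h2
          simp only at h3
          rw [Finset.mem_image]
          refine ⟨(c, d), ?_, rfl⟩
          -- all four entries are distinct
          have hc4 : ({x, y, c, d} : Finset α).card = 4 := by rw [h3]; exact hA4
          have hcA : c ∈ A := by rw [← h3]; simp
          have hdA : d ∈ A := by rw [← h3]; simp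
          rw [Finset.mem_offDiag]
          have key : c ≠ x ∧ c ≠ y ∧ d ≠ x ∧ d ≠ y ∧ c ≠ d := by
            refine ⟨?_, ?_, ?_, ?_, ?_⟩
            · rintro rfl
              have : ({c, y, c, d} : Finset α) = {c, y, d} := by
                ext z; simp only [Finset.mem_insert, Finset.mem_singleton]; tauto
              rw [this] at hc4
              have := Finset.card_le_three (a := c) (b := y) (c := d)
              omega
            · rintro rfl
              have : ({x, c, c, d} : Finset α) = {x, c, d} := by
                ext z; simp only [Finset.mem_insert, Finset.mem_singleton]; tauto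
              rw [this] at hc4
              have := Finset.card_le_three (a := x) (b := c) (c := d)
              omega
            · rintro rfl
              have : ({d, y, c, d} : Finset α) = {y, c, d} := by
                ext z; simp only [Finset.mem_insert, Finset.mem_singleton]; tauto
              rw [this] at hc4
              have := Finset.card_le_three (a := y) (b := c) (c := d)
              omega
            · rintro rfl
              have : ({x, d, c, d} : Finset α) = {x, c, d} := by
                ext z; simp only [Finset.mem_insert, Finset.mem_singleton]; tauto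
              rw [this] at hc4
              have := Finset.card_le_three (a := x) (b := c) (c := d)
              omega
            · rintro rfl
              have : ({x, y, c, c} : Finset α) = {x, y, c} := by
                ext z; simp only [Finset.mem_insert, Finset.mem_singleton]; tauto
              rw [this] at hc4
              have := Finset.card_le_three (a := x) (b := y) (c := c)
              omega
          obtain ⟨k1, k2, k3, k4, k5⟩ := key
          refine ⟨?_, ?_, k5⟩
          · rw [Finset.mem_sdiff]
            refine ⟨hcA, ?_⟩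
            simp only [Finset.mem_insert, Finset.mem_singleton]
            tauto
          · rw [Finset.mem_sdiff]
            refine ⟨hdA, ?_⟩
            simp only [Finset.mem_insert, Finset.mem_singleton]
            tauto
        refine (Finset.card_le_card hsub).trans (Finset.card_image_le.trans ?_)
        rw [Finset.offDiag_card, hcard]
    exact h1.trans (Nat.mul_le_mul_left 2 (hD a b hab))

theorem tup_fst_le (F : Finset (Finset α)) (hF : ∀ A ∈ F, A.card = 4) (D : ℕ)
    (hD : ∀ a b : α, a ≠ b → (F.filter fun A => {a, b} ⊆ A).card ≤ D)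
    (R : Finset (α × α)) :
    ((tup F).filter fun t => t.1 ∈ R).card ≤ 2 * D * R.card := by
  apply Finset.card_le_mul_card_image_of_maps_to (f := fun t : (α × α) × (α × α) => t.1)
  · intro t ht
    exact (Finset.mem_filter.mp ht).2
  · intro p _
    refine le_trans (Finset.card_le_card ?_) (fiber_le F hF D hD p)
    intro t ht
    rw [Finset.mem_filter, Finset.mem_filter] at ht
    rw [Finset.mem_filter]
    exact ⟨ht.1.1, ht.2⟩

theorem tup_snd_le (F : Finset (Finset α)) (hF : ∀ A ∈ F, A.card = 4) (D : ℕ)
    (hD : ∀ a b : α, a ≠ b → (F.filter fun A => {a, b} ⊆ A).card ≤ D)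
    (R : Finset (α × α)) :
    ((tup F).filter fun t => t.2 ∈ R).card ≤ 2 * D * R.card := by
  refine le_trans ?_ (tup_fst_le F hF D hD R)
  apply Finset.card_le_card_of_injOn (fun t => (t.2, t.1))
  · intro t ht
    rw [Finset.mem_coe, Finset.mem_filter, mem_tup] at ht
    rw [Finset.mem_coe, Finset.mem_filter, mem_tup]
    refine ⟨?_, ht.2⟩
    have : ({t.2.1, t.2.2, t.1.1, t.1.2} : Finset α) = {t.1.1, t.1.2, t.2.1, t.2.2} := by
      ext z; simp only [Finset.mem_insert, Finset.mem_singleton]; tauto
    simp only
    rw [this]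
    exact ht.1
  · rintro ⟨p, q⟩ _ ⟨p', q'⟩ _ h
    simp only [Prod.mk.injEq] at h ⊢
    exact ⟨h.2, h.1⟩

/-- Number of quadruples in `tup F`. -/
theorem tup_card_le (F : Finset (Finset α)) (hF : ∀ A ∈ F, A.card = 4) (D : ℕ)
    (hD : ∀ a b : α, a ≠ b → (F.filter fun A => {a, b} ⊆ A).card ≤ D) :
    (tup F).card ≤ 2 * D * (Fintype.card α) ^ 2 := by
  have h := tup_fst_le F hF D hD Finset.univ
  rw [Finset.card_univ, Fintype.card_prod] at h
  simp only [Finset.mem_univ, Finset.filter_true] at h
  calc (tup F).card ≤ _ := h
    _ = _ := by ring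

/-- Number of quadruples in `tup F` with an entry in `W`. -/
theorem tup_meet_le (F : Finset (Finset α)) (hF : ∀ A ∈ F, A.card = 4) (D : ℕ)
    (hD : ∀ a b : α, a ≠ b → (F.filter fun A => {a, b} ⊆ A).card ≤ D) (W : Finset α) :
    ((tup F).filter fun t => t.1.1 ∈ W ∨ t.1.2 ∈ W ∨ t.2.1 ∈ W ∨ t.2.2 ∈ W).card ≤
      8 * D * (W.card * Fintype.card α) := by
  have hsub : ((tup F).filter fun t => t.1.1 ∈ W ∨ t.1.2 ∈ W ∨ t.2.1 ∈ W ∨ t.2.2 ∈ W) ⊆
      (((tup F).filter fun t => t.1 ∈ W ×ˢ (Finset.univ : Finset α)) ∪
        ((tup F).filter fun t => t.1 ∈ (Finset.univ : Finset α) ×ˢ W)) ∪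
      (((tup F).filter fun t => t.2 ∈ W ×ˢ (Finset.univ : Finset α)) ∪
        ((tup F).filter fun t => t.2 ∈ (Finset.univ : Finset α) ×ˢ W)) := by
    intro t ht
    simp only [Finset.mem_union, Finset.mem_filter, Finset.mem_product, Finset.mem_univ,
      and_true, true_and] at ht ⊢
    tauto
  refine (Finset.card_le_card hsub).trans ?_
  have h1 := tup_fst_le F hF D hD (W ×ˢ (Finset.univ : Finset α))
  have h2 := tup_fst_le F hF D hD ((Finset.univ : Finset α) ×ˢ W)
  have h3 := tup_snd_le F hF D hD (W ×ˢ (Finset.univ : Finset α))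
  have h4 := tup_snd_le F hF D hD ((Finset.univ : Finset α) ×ˢ W)
  rw [Finset.card_product, Finset.card_univ] at h1 h2 h3 h4
  have h5 : Fintype.card α * W.card = W.card * Fintype.card α := Nat.mul_comm _ _
  rw [h5] at h2 h4
  refine (Finset.card_union_le _ _).trans ?_
  refine (Nat.add_le_add (Finset.card_union_le _ _) (Finset.card_union_le _ _)).trans ?_
  calc _ ≤ _ := Nat.add_le_add (Nat.add_le_add h1 h2) (Nat.add_le_add h3 h4)
    _ = _ := by ring

end Count

section Pos

variable {n : ℕ}

/-- number of increasing pairs -/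
theorem card_lt_pairs (R : Finset (Fin n × Fin n)) (hR : ∀ x ∈ R, x.1 < x.2) :
    2 * R.card ≤ n ^ 2 := by
  have h1 : (R.image Prod.swap).card = R.card :=
    Finset.card_image_of_injective _ Prod.swap_injective
  have hdis : Disjoint R (R.image Prod.swap) := by
    rw [Finset.disjoint_left]
    rintro ⟨a, b⟩ h2 h3
    rw [Finset.mem_image] at h3
    obtain ⟨⟨c, d⟩, h4, h5⟩ := h3
    simp only [Prod.swap_prod_mk, Prod.mk.injEq] at h5
    obtain ⟨rfl, rfl⟩ := h5
    have h6 := hR _ h2
    have h7 := hR _ h4
    simp only at h6 h7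
    exact absurd h6 (not_lt.mpr h7.le)
  have h2 : (R ∪ R.image Prod.swap).card = 2 * R.card := by
    rw [Finset.card_union_of_disjoint hdis, h1]; ring
  rw [← h2]
  have h3 : (R ∪ R.image Prod.swap).card ≤ Fintype.card (Fin n × Fin n) := Finset.card_le_univ _
  rw [Fintype.card_prod, Fintype.card_fin] at h3
  calc _ ≤ _ := h3
    _ = _ := by ring

/-- number of increasing pairs meeting a set -/
theorem card_lt_pairs_meet (R : Finset (Fin n × Fin n)) (hR : ∀ x ∈ R, x.1 < x.2)
    (Q : Finset (Fin n)) (hQ : ∀ x ∈ R, x.1 ∈ Q ∨ x.2 ∈ Q) :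
    R.card ≤ Q.card * n := by
  have h : R.card ≤ (Q ×ˢ (Finset.univ : Finset (Fin n))).card := by
    apply Finset.card_le_card_of_injOn
      (fun x : Fin n × Fin n => if x.1 ∈ Q then (x.1, x.2) else (x.2, x.1))
    · intro x hx
      rw [Finset.mem_coe] at hx ⊢
      rcases hQ x hx with h | h
      · simp [h]
      · by_cases h1 : x.1 ∈ Q
        · simp [h1]
        · simp [h1, h]
    · rintro ⟨a, b⟩ hx ⟨c, d⟩ hy h
      rw [Finset.mem_coe] at hx hy
      have h1 := hR _ hx
      have h2 := hR _ hy
      simp only at h1 h2 h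
      split_ifs at h with h3 h4 h4
      · exact h
      · simp only [Prod.mk.injEq] at h
        obtain ⟨rfl, rfl⟩ := h
        exact absurd h1 (not_lt.mpr h2.le)
      · simp only [Prod.mk.injEq] at h
        obtain ⟨rfl, rfl⟩ := h
        exact absurd h1 (not_lt.mpr h2.le)
      · simp only [Prod.mk.injEq] at h ⊢
        exact ⟨h.2, h.1⟩
  rwa [Finset.card_product, Finset.card_univ, Fintype.card_fin] at h

end Pos

end Pool.Agent.Lib_MP_626dc7_co
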