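import Mathlib

set_option autoImplicit false

/-!
Definitions for the problem on `(2,2)`-acceptable Hamilton cycles.
-/

namespace Pool.Agent.Lib_MP_626dc7_co

/-- A closed walk `C` of the complete graph on `[n]` is `(2,2)`-acceptable with respect to the
family `F` if no two vertex-disjoint edges `e`, `f` of `C` satisfy `e ∪ f ∈ F`. -/
def Acceptable {n : ℕ} (F : Finset (Finset (Fin n))) {a : Fin n}
    (C : (⊤ : SimpleGraph (Fin n)).Walk a a) : Prop :=
  ∀ e ∈ C.edges, ∀ f ∈ C.edges, Disjoint e.toFinset f.toFinset →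
    e.toFinset ∪ f.toFinset ∉ F

/-- `K_n` has a `(2,2)`-acceptable Hamilton cycle with respect to `F`. -/
def HasAcceptableHamiltonCycle {n : ℕ} (F : Finset (Finset (Fin n))) : Prop :=
  ∃ (a : Fin n) (C : (⊤ : SimpleGraph (Fin n)).Walk a a),
    C.IsHamiltonianCycle ∧ Acceptable F C

/-- The 2-degree `d₂(F)`: the maximum over all 2-subsets `D` of `[n]` of the number of members of
`F` that contain `D`. -/
def d₂ {n : ℕ} (F : Finset (Finset (Fin n))) : ℕ :=
  (Finset.powersetCard 2 (Finset.univ : Finset (Fin n))).sup fun D =>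
    (F.filter fun A => D ⊆ A).card

/-- `m₂((2,2),n)`: the minimum of `d₂(F)` over all families `F` of 4-subsets of `[n]` for which
`K_n` has no `(2,2)`-acceptable Hamilton cycle. -/
noncomputable def m₂ (n : ℕ) : ℕ :=
  sInf {d : ℕ | ∃ F : Finset (Finset (Fin n)),
    (∀ A ∈ F, A.card = 4) ∧ ¬ HasAcceptableHamiltonCycle F ∧ d₂ F = d}

end Pool.Agent.Lib_MP_626dc7_co
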