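import Mathlib

set_option autoImplicit false

/-!
# A counting form of the lopsided Lovász local lemma, and random permutations

`lopsided_lll` is the symmetric lopsided local lemma for a finite uniform probability space, stated
with cardinalities.  `neg_dep` is the switching argument: for a uniformly random permutation `σ` of
a finite set, the event `σ ∘ P = V` is negatively dependent on any family of such events that use
neither a point of `P` nor a value of `V`.
-/

namespace Pool.Agent.Lib_MP_626dc7_co

open Finset

section LLL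

variable {Ω ι : Type*} [DecidableEq Ω] [DecidableEq ι]

/-- The outcomes in `X` avoiding all the bad events `B s`, `s ∈ S`. -/
def avoid (X : Finset Ω) (B : ι → Finset Ω) (S : Finset ι) : Finset Ω :=
  X.filter fun ω => ∀ s ∈ S, ω ∉ B s

omit [DecidableEq ι] in
theorem mem_avoid {X : Finset Ω} {B : ι → Finset Ω} {S : Finset ι} {ω : Ω} :
    ω ∈ avoid X B S ↔ ω ∈ X ∧ ∀ s ∈ S, ω ∉ B s := by
  simp [avoid]

omit [DecidableEq ι] in
theorem avoid_anti {X : Finset Ω} {B : ι → Finset Ω} {S T : Finset ι} (h : S ⊆ T) :
    avoid X B T ⊆ avoid X B S := by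
  intro ω hω
  rw [mem_avoid] at *
  exact ⟨hω.1, fun s hs => hω.2 s (h hs)⟩

theorem lll_step (X : Finset Ω) (B : ι → Finset Ω) (E : Finset ι) (N : ι → Finset ι) (M d : ℕ)
    (hM : 0 < M) (hN : ∀ i ∈ E, (N i).card ≤ d) (hd : 4 * d ≤ M)
    (hdep : ∀ i ∈ E, ∀ S ⊆ E, Disjoint S (N i) →
      (avoid X B S ∩ B i).card * M ≤ (avoid X B S).card) :
    ∀ S : Finset ι, S ⊆ E → ∀ i ∈ E,
      (avoid X B S ∩ B i).card * M ≤ 2 * (avoid X B S).card := by
  intro S
  induction S using Finset.strongInduction with
  | H S ih =>
    intro hSE i hi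
    by_cases hS1 : S ∩ N i = ∅
    · have hdis : Disjoint S (N i) := by rwa [Finset.disjoint_iff_inter_eq_empty]
      have := hdep i hi S hSE hdis
      omega
    · set S2 := S \ N i with hS2
      have hS2S : S2 ⊆ S := Finset.sdiff_subset
      have hss : S2 ⊂ S := by
        refine Finset.ssubset_iff_subset_ne.mpr ⟨hS2S, ?_⟩
        intro h
        apply hS1
        rw [← Finset.disjoint_iff_inter_eq_empty]
        rw [← h, hS2]
        exact Finset.sdiff_disjoint
      have hS2E : S2 ⊆ E := hS2S.trans hSE
      have hdis : Disjoint S2 (N i) := Finset.sdiff_disjoint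
      have h1 : (avoid X B S2 ∩ B i).card * M ≤ (avoid X B S2).card := hdep i hi S2 hS2E hdis
      have h2 : (avoid X B S ∩ B i).card ≤ (avoid X B S2 ∩ B i).card :=
        Finset.card_le_card (Finset.inter_subset_inter_right (avoid_anti hS2S))
      have h3 : avoid X B S2 ⊆
          avoid X B S ∪ (S ∩ N i).biUnion (fun s => avoid X B S2 ∩ B s) := by
        intro ω hω
        by_cases hbad : ∃ s ∈ S ∩ N i, ω ∈ B s
        · obtain ⟨s, hs, hsω⟩ := hbad
          refine Finset.mem_union_right _ ?_
          rw [Finset.mem_biUnion]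
          exact ⟨s, hs, Finset.mem_inter.mpr ⟨hω, hsω⟩⟩
        · refine Finset.mem_union_left _ ?_
          rw [mem_avoid] at *
          refine ⟨hω.1, fun s hs hsω => ?_⟩
          by_cases hsN : s ∈ N i
          · exact hbad ⟨s, Finset.mem_inter.mpr ⟨hs, hsN⟩, hsω⟩
          · exact hω.2 s (Finset.mem_sdiff.mpr ⟨hs, hsN⟩) hsω
      have h4 : (avoid X B S2).card ≤
          (avoid X B S).card + ∑ s ∈ S ∩ N i, (avoid X B S2 ∩ B s).card :=
        (Finset.card_le_card h3).trans ((Finset.card_union_le _ _).trans
          (Nat.add_le_add_left Finset.card_biUnion_le _))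
      have h5 : (∑ s ∈ S ∩ N i, (avoid X B S2 ∩ B s).card) * M ≤
          d * (2 * (avoid X B S2).card) := by
        rw [Finset.sum_mul]
        calc ∑ s ∈ S ∩ N i, (avoid X B S2 ∩ B s).card * M
            ≤ ∑ s ∈ S ∩ N i, 2 * (avoid X B S2).card := by
              apply Finset.sum_le_sum
              intro s hs
              exact ih S2 hss hS2E s (hSE (Finset.mem_inter.mp hs).1)
          _ = (S ∩ N i).card * (2 * (avoid X B S2).card) := by
              rw [Finset.sum_const, smul_eq_mul]
          _ ≤ d * (2 * (avoid X B S2).card) := by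
              apply Nat.mul_le_mul_right
              exact (Finset.card_le_card Finset.inter_subset_right).trans (hN i hi)
      have h6 : (avoid X B S2).card ≤ 2 * (avoid X B S).card := by
        have h7 : (avoid X B S2).card * M ≤
            (avoid X B S).card * M + d * (2 * (avoid X B S2).card) := by
          calc (avoid X B S2).card * M
              ≤ ((avoid X B S).card + ∑ s ∈ S ∩ N i, (avoid X B S2 ∩ B s).card) * M :=
                Nat.mul_le_mul_right _ h4
            _ = (avoid X B S).card * M + (∑ s ∈ S ∩ N i, (avoid X B S2 ∩ B s).card) * M := by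
                rw [Nat.add_mul]
            _ ≤ _ := Nat.add_le_add_left h5 _
        have h8 : 4 * d * (avoid X B S2).card ≤ M * (avoid X B S2).card :=
          Nat.mul_le_mul_right _ hd
        have h9 : M * (avoid X B S2).card ≤ M * (2 * (avoid X B S).card) := by nlinarith
        exact Nat.le_of_mul_le_mul_left h9 hM
      calc (avoid X B S ∩ B i).card * M ≤ (avoid X B S2 ∩ B i).card * M :=
            Nat.mul_le_mul_right _ h2
        _ ≤ (avoid X B S2).card := h1
        _ ≤ 2 * (avoid X B S).card := h6

/-- **Symmetric lopsided Lovász local lemma**, counting form.  If every bad event `B i` has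
conditional probability at most `1 / M` given that any set of non-neighbouring bad events is
avoided, every bad event has at most `d` neighbours, and `4 * d ≤ M`, `2 < M`, then some outcome
avoids every bad event. -/
theorem lopsided_lll (X : Finset Ω) (hX : X.Nonempty) (B : ι → Finset Ω) (E : Finset ι)
    (N : ι → Finset ι) (M d : ℕ)
    (hM : 2 < M) (hN : ∀ i ∈ E, (N i).card ≤ d) (hd : 4 * d ≤ M)
    (hdep : ∀ i ∈ E, ∀ S ⊆ E, Disjoint S (N i) →
      (avoid X B S ∩ B i).card * M ≤ (avoid X B S).card) :
    ∃ ω ∈ X, ∀ i ∈ E, ω ∉ B i := by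
  have step := lll_step X B E N M d (by omega) hN hd hdep
  have key : ∀ S : Finset ι, S ⊆ E → 0 < (avoid X B S).card := by
    intro S
    induction S using Finset.induction_on with
    | empty =>
      intro _
      rw [Finset.card_pos]
      obtain ⟨ω, hω⟩ := hX
      exact ⟨ω, mem_avoid.mpr ⟨hω, fun s hs => absurd hs (Finset.notMem_empty s)⟩⟩
    | insert s S hs ih =>
      intro hSE
      have hSE' : S ⊆ E := (Finset.subset_insert s S).trans hSE
      have hsE : s ∈ E := hSE (Finset.mem_insert_self s S)
      have h1 := step S hSE' s hsE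
      have h2 := ih hSE'
      have h3 : avoid X B S ⊆ avoid X B (insert s S) ∪ (avoid X B S ∩ B s) := by
        intro ω hω
        by_cases hb : ω ∈ B s
        · exact Finset.mem_union_right _ (Finset.mem_inter.mpr ⟨hω, hb⟩)
        · refine Finset.mem_union_left _ ?_
          rw [mem_avoid] at *
          refine ⟨hω.1, fun t ht => ?_⟩
          rcases Finset.mem_insert.mp ht with rfl | ht
          · exact hb
          · exact hω.2 t ht
      have h4 : (avoid X B S).card ≤
          (avoid X B (insert s S)).card + (avoid X B S ∩ B s).card :=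
        (Finset.card_le_card h3).trans (Finset.card_union_le _ _)
      by_contra h0
      have h0' : (avoid X B (insert s S)).card = 0 := by omega
      rw [h0', zero_add] at h4
      have h5 : (avoid X B S).card * M ≤ 2 * (avoid X B S).card :=
        (Nat.mul_le_mul_right _ h4).trans h1
      nlinarith
  have h := key E (subset_refl E)
  rw [Finset.card_pos] at h
  obtain ⟨ω, hω⟩ := h
  rw [mem_avoid] at hω
  exact ⟨ω, hω.1, hω.2⟩

end LLL

section Perm

variable {α κ : Type*} [Fintype α] [DecidableEq α] [Fintype κ] [DecidableEq κ]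

omit [Fintype α] [Fintype κ] in
theorem exists_perm_aux (V W : κ → α) (hV : Function.Injective V) (hW : Function.Injective W)
    (s : Finset κ) :
    ∃ τ : Equiv.Perm α, (∀ k ∈ s, τ (V k) = W k) ∧
      ∀ x, (∀ k, x ≠ V k) → (∀ k, x ≠ W k) → τ x = x := by
  induction s using Finset.induction_on with
  | empty => exact ⟨1, fun k hk => absurd hk (Finset.notMem_empty k), fun x _ _ => rfl⟩
  | insert a s ha ih =>
    obtain ⟨τ, h1, h2⟩ := ih
    refine ⟨Equiv.swap (τ (V a)) (W a) * τ, ?_, ?_⟩
    · intro k hk
      rcases Finset.mem_insert.mp hk with rfl | hk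
      · simp
      · have hka : k ≠ a := fun h => ha (h ▸ hk)
        rw [Equiv.Perm.mul_apply, h1 k hk]
        apply Equiv.swap_apply_of_ne_of_ne
        · rw [← h1 k hk]
          intro h
          exact hka (hV (τ.injective h))
        · intro h
          exact hka (hW h)
    · intro x hxV hxW
      rw [Equiv.Perm.mul_apply, h2 x hxV hxW]
      apply Equiv.swap_apply_of_ne_of_ne
      · intro h
        apply hxV a
        apply τ.injective
        rw [h2 x hxV hxW]
        exact h
      · exact hxW a

omit [Fintype α] in
/-- For two injective tuples `V`, `W` there is a permutation sending `V` to `W` and fixing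
everything outside the ranges of `V` and `W`. -/
theorem exists_perm (V W : κ → α) (hV : Function.Injective V) (hW : Function.Injective W) :
    ∃ τ : Equiv.Perm α, (∀ k, τ (V k) = W k) ∧
      ∀ x, (∀ k, x ≠ V k) → (∀ k, x ≠ W k) → τ x = x := by
  obtain ⟨τ, h1, h2⟩ := exists_perm_aux V W hV hW Finset.univ
  exact ⟨τ, fun k => h1 k (Finset.mem_univ k), h2⟩

/-- The event that the random permutation maps the tuple `P` to the tuple `V`. -/
def ev (P V : κ → α) : Finset (Equiv.Perm α) :=
  Finset.univ.filter fun σ => ∀ k, σ (P k) = V k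

omit [DecidableEq κ] in
theorem mem_ev {P V : κ → α} {σ : Equiv.Perm α} : σ ∈ ev P V ↔ ∀ k, σ (P k) = V k := by
  simp [ev]

/-- **Switching lemma.**  The event `ev P V` is negatively dependent on any family of events
`ev P' V'` that share neither a position nor a value with it. -/
theorem neg_dep {ι : Type*} [DecidableEq ι] (P V : κ → α)
    (hV : Function.Injective V)
    (B : ι → Finset (Equiv.Perm α)) (S : Finset ι)
    (hB : ∀ s ∈ S, ∃ P' V' : κ → α, B s = ev P' V' ∧
      (∀ k l, P' k ≠ P l) ∧ (∀ k l, V' k ≠ V l)) :
    (avoid Finset.univ B S ∩ ev P V).card *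
      (Fintype.card α).descFactorial (Fintype.card κ) ≤ (avoid Finset.univ B S).card := by
  choose τ hτ1 hτ2 using fun W : κ ↪ α => exists_perm V W hV W.injective
  rw [← Fintype.card_embedding_eq, ← Finset.card_univ, ← Finset.card_product]
  apply Finset.card_le_card_of_injOn (fun x => τ x.2 * x.1)
  · rintro ⟨σ, W⟩ hx
    simp only [Finset.coe_product, Set.mem_prod, Finset.mem_coe, Finset.mem_inter,
      Finset.mem_univ, and_true] at hx
    obtain ⟨hσ1, hσ2⟩ := hx
    rw [mem_ev] at hσ2
    rw [mem_avoid] at hσ1
    simp only [Finset.mem_coe]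
    rw [mem_avoid]
    refine ⟨Finset.mem_univ _, fun s hs hbad => ?_⟩
    apply hσ1.2 s hs
    obtain ⟨P', V', hBs, hP', hV'⟩ := hB s hs
    rw [hBs, mem_ev] at hbad ⊢
    intro k
    have hk := hbad k
    rw [Equiv.Perm.mul_apply] at hk
    -- `V' k` is not a value of `W`, because `W l = τ W (σ (P l))`
    have hne : ∀ l, V' k ≠ W l := by
      intro l h
      rw [h, ← hτ1 W l, ← hσ2 l] at hk
      exact hP' k l (σ.injective ((τ W).injective hk))
    have hfix : τ W (V' k) = V' k := hτ2 W (V' k) (fun l => hV' k l) hne
    rw [← hfix] at hk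
    exact (τ W).injective hk
  · rintro ⟨σ, W⟩ hx ⟨σ', W'⟩ hx' h
    simp only [Finset.coe_product, Set.mem_prod, Finset.mem_coe, Finset.mem_inter,
      Finset.mem_univ, and_true] at hx hx'
    have hσ2 := mem_ev.mp hx.2
    have hσ2' := mem_ev.mp hx'.2
    simp only at h
    have hW : W = W' := by
      ext l
      have := congrArg (fun f : Equiv.Perm α => f (P l)) h
      simp only [Equiv.Perm.mul_apply] at this
      rw [hσ2 l, hσ2' l, hτ1 W l, hτ1 W' l] at this
      exact this
    subst hW
    have := mul_left_cancel h
    rw [this]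

end Perm

end Pool.Agent.Lib_MP_626dc7_co
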