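import Mathlib
import Pool.Agent.Lib_MP_626dc7_co.Defs
import Pool.Agent.Lib_MP_626dc7_co.LLL
import Pool.Agent.Lib_MP_626dc7_co.Count

set_option autoImplicit false

namespace Pool.Agent.Lib_MP_626dc7_co

open Finset

section cycle

variable {m : ℕ}

/-- the homomorphism from the cycle graph to the complete graph given by a permutation -/
def permHom (σ : Equiv.Perm (Fin (m + 3))) :
    SimpleGraph.cycleGraph (m + 3) →g (⊤ : SimpleGraph (Fin (m + 3))) where
  toFun := σ
  map_rel' := by
    intro a b hab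
    rw [SimpleGraph.top_adj]
    exact fun h => hab.ne (σ.injective h)

/-- the Hamilton cycle `σ 0, σ 1, …` -/
def permCycle (σ : Equiv.Perm (Fin (m + 3))) :
    (⊤ : SimpleGraph (Fin (m + 3))).Walk (permHom σ 0) (permHom σ 0) :=
  (SimpleGraph.cycleGraph.cycle m).map (permHom σ)

theorem permCycle_ham (σ : Equiv.Perm (Fin (m + 3))) : (permCycle σ).IsHamiltonianCycle := by
  unfold permCycle
  apply SimpleGraph.Walk.IsHamiltonianCycle.map
  · exact σ.bijective
  · rw [SimpleGraph.Walk.isHamiltonianCycle_iff_isCycle_and_length_eq]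
    refine ⟨SimpleGraph.cycleGraph.isCycle_cycle, ?_⟩
    rw [SimpleGraph.cycleGraph.length_cycle, Fintype.card_fin]

theorem permCycle_edge (σ : Equiv.Perm (Fin (m + 3))) (e : Sym2 (Fin (m + 3)))
    (he : e ∈ (permCycle σ).edges) : ∃ i : Fin (m + 3), e.toFinset = {σ i, σ (i + 1)} := by
  unfold permCycle at he
  rw [SimpleGraph.Walk.edges_map, List.mem_map] at he
  obtain ⟨e', he', rfl⟩ := he
  have h := SimpleGraph.Walk.edges_subset_edgeSet _ he'
  induction e' with
  | h u v =>
    rw [SimpleGraph.mem_edgeSet] at h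
    have h' : u - v = 1 ∨ v - u = 1 := h
    rcases h' with h' | h'
    · refine ⟨v, ?_⟩
      have hu : u = v + 1 := by rw [← h']; abel
      rw [Sym2.map_mk, Sym2.toFinset_mk_eq, hu, Finset.pair_comm]
      rfl
    · refine ⟨u, ?_⟩
      have hv : v = u + 1 := by rw [← h']; abel
      rw [Sym2.map_mk, Sym2.toFinset_mk_eq, hv]
      rfl

end cycle

/-- pairs -/
abbrev Pr (m : ℕ) : Type := Fin (m + 3) × Fin (m + 3)

/-- index type of the bad events: two starting positions and four values -/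
abbrev Idx (m : ℕ) : Type := Pr m × (Pr m × Pr m)

/-- the positions used by an event -/
def pos {m : ℕ} (p : Pr m) : Fin 4 → Fin (m + 3) :=
  ![p.1, p.1 + 1, p.2, p.2 + 1]

/-- the values used by an event -/
def val {m : ℕ} (t : Pr m × Pr m) : Fin 4 → Fin (m + 3) :=
  ![t.1.1, t.1.2, t.2.1, t.2.2]

/-- admissible pairs of positions -/
def posPairs (m : ℕ) : Finset (Pr m) :=
  Finset.univ.filter fun p => p.1 < p.2 ∧ p.1 + 1 ≠ p.2 ∧ p.2 + 1 ≠ p.1

/-- all bad events -/
def events {m : ℕ} (F : Finset (Finset (Fin (m + 3)))) : Finset (Idx m) :=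
  posPairs m ×ˢ tup F

/-- the neighbours of an event: those sharing a position or a value -/
def nbr {m : ℕ} (F : Finset (Finset (Fin (m + 3)))) (x : Idx m) : Finset (Idx m) :=
  (events F).filter fun y =>
    (∃ k l, pos y.1 k = pos x.1 l) ∨ (∃ k l, val y.2 k = val x.2 l)

/-- positions close to `i`, `j` -/
def close {m : ℕ} (p : Pr m) : Finset (Fin (m + 3)) :=
  {p.1 - 1, p.1, p.1 + 1, p.2 - 1, p.2, p.2 + 1}

theorem pos_close {m : ℕ} (p q : Pr m) (k l : Fin 4) (hkl : pos q k = pos p l) :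
    q.1 ∈ close p ∨ q.2 ∈ close p := by
  obtain ⟨i, j⟩ := p
  obtain ⟨i', j'⟩ := q
  have hl : pos (i, j) l = i ∨ pos (i, j) l = i + 1 ∨ pos (i, j) l = j ∨
      pos (i, j) l = j + 1 := by
    fin_cases l
    · left; rfl
    · right; left; rfl
    · right; right; left; rfl
    · right; right; right; rfl
  rw [← hkl] at hl
  have e1 : ∀ x y : Fin (m + 3), x + 1 = y → x = y - 1 := fun x y h => by
    rw [← h]; abel
  have e2 : ∀ x y : Fin (m + 3), x + 1 = y + 1 → x = y := fun x y h => add_right_cancel h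
  have e3 : ∀ x : Fin (m + 3), (x = i ∨ x = i + 1 ∨ x = j ∨ x = j + 1) → x ∈ close (i, j) := by
    intro x hx
    simp only [close, Finset.mem_insert, Finset.mem_singleton]
    tauto
  have e4 : ∀ x : Fin (m + 3), (x + 1 = i ∨ x + 1 = i + 1 ∨ x + 1 = j ∨ x + 1 = j + 1) →
      x ∈ close (i, j) := by
    intro x hx
    simp only [close, Finset.mem_insert, Finset.mem_singleton]
    rcases hx with h | h | h | h
    · left; exact e1 _ _ h
    · right; left; exact e2 _ _ h
    · right; right; right; left; exact e1 _ _ h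
    · right; right; right; right; left; exact e2 _ _ h
  fin_cases k
  · left; exact e3 _ hl
  · left; exact e4 _ hl
  · right; exact e3 _ hl
  · right; exact e4 _ hl

theorem nbr_card {m : ℕ} (F : Finset (Finset (Fin (m + 3))))
    (hF : ∀ A ∈ F, A.card = 4) (D : ℕ)
    (hD : ∀ a b : Fin (m + 3), a ≠ b → (F.filter fun A => {a, b} ⊆ A).card ≤ D)
    (x : Idx m) : (nbr F x).card ≤ 28 * D * (m + 3) ^ 3 := by
  obtain ⟨p, t⟩ := x
  have hQ6 : (close p).card ≤ 6 := Finset.card_le_six
  set W : Finset (Fin (m + 3)) := {t.1.1, t.1.2, t.2.1, t.2.2} with hW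
  have hW4 : W.card ≤ 4 := Finset.card_le_four
  have hsub : nbr F (p, t) ⊆
      (((posPairs m).filter fun q => q.1 ∈ close p ∨ q.2 ∈ close p) ×ˢ tup F) ∪
      (posPairs m ×ˢ
        ((tup F).filter fun t => t.1.1 ∈ W ∨ t.1.2 ∈ W ∨ t.2.1 ∈ W ∨ t.2.2 ∈ W)) := by
    rintro ⟨q, t'⟩ hy
    obtain ⟨hy12, hy3⟩ := Finset.mem_filter.mp hy
    obtain ⟨hy1, hy2⟩ := Finset.mem_product.mp hy12
    rw [Finset.mem_union]
    rcases hy3 with ⟨k, l, hkl⟩ | ⟨k, l, hkl⟩
    · left
      exact Finset.mem_product.mpr ⟨Finset.mem_filter.mpr ⟨hy1, pos_close p q k l hkl⟩, hy2⟩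
    · right
      refine Finset.mem_product.mpr ⟨hy1, Finset.mem_filter.mpr ⟨hy2, ?_⟩⟩
      have hl : val t l ∈ W := by
        fin_cases l <;> simp [val, hW]
      have hkl' : val t' k = val t l := hkl
      rw [← hkl'] at hl
      fin_cases k
      · left; exact hl
      · right; left; exact hl
      · right; right; left; exact hl
      · right; right; right; exact hl
  have h1 : ((posPairs m).filter fun q => q.1 ∈ close p ∨ q.2 ∈ close p).card ≤
      (close p).card * (m + 3) := by
    apply card_lt_pairs_meet _ _ (close p)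
    · intro x hx
      exact (Finset.mem_filter.mp hx).2
    · intro x hx
      have := (Finset.mem_filter.mp hx).1
      exact (Finset.mem_filter.mp this).2.1
  have h2 := tup_card_le F hF D hD
  have h3 : 2 * (posPairs m).card ≤ (m + 3) ^ 2 := by
    apply card_lt_pairs
    intro x hx
    exact (Finset.mem_filter.mp hx).2.1
  have h4 := tup_meet_le F hF D hD W
  rw [Fintype.card_fin] at h2 h4
  refine (Finset.card_le_card hsub).trans ((Finset.card_union_le _ _).trans ?_)
  rw [Finset.card_product, Finset.card_product]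
  have h5 : ((posPairs m).filter fun q => q.1 ∈ close p ∨ q.2 ∈ close p).card *
      (tup F).card ≤ (6 * (m + 3)) * (2 * D * (m + 3) ^ 2) := by
    apply Nat.mul_le_mul _ h2
    exact h1.trans (Nat.mul_le_mul_right _ hQ6)
  have h6 : ((tup F).filter fun t => t.1.1 ∈ W ∨ t.1.2 ∈ W ∨ t.2.1 ∈ W ∨ t.2.2 ∈ W).card ≤
      32 * D * (m + 3) := by
    refine h4.trans ?_
    calc 8 * D * (W.card * (m + 3)) ≤ 8 * D * (4 * (m + 3)) :=
          Nat.mul_le_mul_left _ (Nat.mul_le_mul_right _ hW4)
      _ = 32 * D * (m + 3) := by ring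
  have h7 : (posPairs m).card *
      ((tup F).filter fun t => t.1.1 ∈ W ∨ t.1.2 ∈ W ∨ t.2.1 ∈ W ∨ t.2.2 ∈ W).card ≤
      16 * D * (m + 3) ^ 3 := by
    have h8 := Nat.mul_le_mul h3 h6
    have h9 : (m + 3) ^ 2 * (32 * D * (m + 3)) = 2 * (16 * D * (m + 3) ^ 3) := by ring
    rw [h9, Nat.mul_assoc] at h8
    omega
  calc _ ≤ _ := Nat.add_le_add h5 h7
    _ = 28 * D * (m + 3) ^ 3 := by ring

theorem val_inj {m : ℕ} (F : Finset (Finset (Fin (m + 3)))) (hF : ∀ A ∈ F, A.card = 4)
    (t : Pr m × Pr m) (ht : t ∈ tup F) : Function.Injective (val t) := by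
  have hx2 := mem_tup.mp ht
  have hc := hF _ hx2
  by_contra hni
  have hlt : (Finset.univ.image (val t)).card < 4 := by
    have h1 : (Finset.univ.image (val t)).card ≤ 4 := by
      simpa using (Finset.card_image_le (s := (Finset.univ : Finset (Fin 4)))
        (f := val t))
    refine lt_of_le_of_ne h1 fun h2 => hni ?_
    have h3 : (Finset.univ.image (val t)).card = (Finset.univ : Finset (Fin 4)).card := by
      rw [h2]; rfl
    have h4 := Finset.card_image_iff.mp h3
    rw [Finset.coe_univ] at h4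
    exact Set.injOn_univ.mp h4
  have heq : (Finset.univ.image (val t)) =
      ({t.1.1, t.1.2, t.2.1, t.2.2} : Finset (Fin (m + 3))) := by
    ext z
    simp only [Finset.mem_image, Finset.mem_univ, true_and, Finset.mem_insert,
      Finset.mem_singleton]
    constructor
    · rintro ⟨k, rfl⟩
      fin_cases k <;> simp [val]
    · rintro (h | h | h | h)
      · exact ⟨0, h.symm⟩
      · exact ⟨1, h.symm⟩
      · exact ⟨2, h.symm⟩
      · exact ⟨3, h.symm⟩
  rw [heq] at hlt
  omega

theorem desc_val (m : ℕ) :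
    (Fintype.card (Fin (m + 3))).descFactorial (Fintype.card (Fin 4)) =
      (m + 3) * (m + 2) * (m + 1) * m := by
  rw [Fintype.card_fin, Fintype.card_fin]
  simp only [Nat.descFactorial]
  have e0 : m + 3 - 0 = m + 3 := rfl
  have e1 : m + 3 - 1 = m + 2 := rfl
  have e2 : m + 3 - 2 = m + 1 := rfl
  have e3 : m + 3 - 3 = m := rfl
  rw [e0, e1, e2, e3]
  ring

theorem two_lt {m : ℕ} (hm : 1 ≤ m) : 2 < (m + 3) * (m + 2) * (m + 1) * m := by
  have h1 : 4 * 3 * 2 * 1 ≤ (m + 3) * (m + 2) * (m + 1) * m := by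
    apply Nat.mul_le_mul _ hm
    apply Nat.mul_le_mul _ (by omega)
    apply Nat.mul_le_mul (by omega) (by omega)
  omega

theorem numeric {m D : ℕ} (hd : 118 * D ≤ m + 3) :
    4 * (28 * D * (m + 3) ^ 3) ≤ (m + 3) * (m + 2) * (m + 1) * m := by
  rcases Nat.eq_zero_or_pos D with h0 | h0
  · rw [h0]; simp
  · have h112 : 112 * D + 6 ≤ m + 3 := by omega
    have h1 : 4 * (28 * D * (m + 3) ^ 3) = (m + 3) * ((112 * D) * (m + 3) ^ 2) := by ring
    have h2 : (m + 3) * (m + 2) * (m + 1) * m = (m + 3) * ((m + 2) * (m + 1) * m) := by ring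
    rw [h1, h2]
    apply Nat.mul_le_mul_left
    obtain ⟨k, hk⟩ : ∃ k, m = k + 3 := ⟨m - 3, by omega⟩
    subst hk
    have h3 : 112 * D ≤ k := by omega
    calc 112 * D * (k + 3 + 3) ^ 2 ≤ k * (k + 3 + 3) ^ 2 := Nat.mul_le_mul_right _ h3
      _ ≤ (k + 3 + 2) * (k + 3 + 1) * (k + 3) := by nlinarith

/-- there is a permutation avoiding all the bad events -/
theorem exists_good_perm {m : ℕ} (hm : 1 ≤ m) (F : Finset (Finset (Fin (m + 3))))
    (hF : ∀ A ∈ F, A.card = 4) (D : ℕ)
    (hD : ∀ a b : Fin (m + 3), a ≠ b → (F.filter fun A => {a, b} ⊆ A).card ≤ D)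
    (hd : 118 * D ≤ m + 3) :
    ∃ σ : Equiv.Perm (Fin (m + 3)), ∀ x ∈ events F, σ ∉ ev (pos x.1) (val x.2) := by
  obtain ⟨σ, -, hσ⟩ := lopsided_lll (Finset.univ : Finset (Equiv.Perm (Fin (m + 3))))
    Finset.univ_nonempty (fun x : Idx m => ev (pos x.1) (val x.2)) (events F) (nbr F)
    ((m + 3) * (m + 2) * (m + 1) * m) (28 * D * (m + 3) ^ 3)
    (two_lt hm) (fun x _ => nbr_card F hF D hD x) (numeric hd) (by
      intro x hx S hSE hdis
      rw [← desc_val]
      apply neg_dep (pos x.1) (val x.2) (val_inj F hF x.2 (Finset.mem_product.mp hx).2)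
      intro s hs
      refine ⟨pos s.1, val s.2, rfl, ?_, ?_⟩
      · intro k l h
        exact (Finset.disjoint_left.mp hdis hs)
          (Finset.mem_filter.mpr ⟨hSE hs, Or.inl ⟨k, l, h⟩⟩)
      · intro k l h
        exact (Finset.disjoint_left.mp hdis hs)
          (Finset.mem_filter.mpr ⟨hSE hs, Or.inr ⟨k, l, h⟩⟩))
  exact ⟨σ, hσ⟩

theorem exists_of_small {m : ℕ} (hm : 1 ≤ m) (F : Finset (Finset (Fin (m + 3))))
    (hF : ∀ A ∈ F, A.card = 4) (hd : 118 * d₂ F ≤ m + 3) : HasAcceptableHamiltonCycle F := by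
  have hD : ∀ a b : Fin (m + 3), a ≠ b → (F.filter fun A => {a, b} ⊆ A).card ≤ d₂ F := by
    intro a b hab
    have : ({a, b} : Finset (Fin (m + 3))) ∈ Finset.powersetCard 2 Finset.univ := by
      rw [Finset.mem_powersetCard]
      exact ⟨Finset.subset_univ _, Finset.card_pair hab⟩
    exact Finset.le_sup (f := fun D => (F.filter fun A => D ⊆ A).card) this
  obtain ⟨σ, hσ⟩ := exists_good_perm hm F hF (d₂ F) hD hd
  -- it suffices to treat `i < j`
  have main : ∀ i j : Fin (m + 3), i < j →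
      Disjoint ({σ i, σ (i + 1)} : Finset (Fin (m + 3))) {σ j, σ (j + 1)} →
      ({σ i, σ (i + 1)} ∪ {σ j, σ (j + 1)} : Finset (Fin (m + 3))) ∈ F → False := by
    intro i j hij hdis hmem
    have hne1 : i + 1 ≠ j := by
      rintro rfl
      exact (Finset.disjoint_left.mp hdis (Finset.mem_insert_of_mem (Finset.mem_singleton_self _)))
        (Finset.mem_insert_self _ _)
    have hne2 : j + 1 ≠ i := by
      rintro rfl
      exact (Finset.disjoint_left.mp hdis (Finset.mem_insert_self _ _))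
        (Finset.mem_insert_of_mem (Finset.mem_singleton_self _))
    have hset : ({σ i, σ (i + 1), σ j, σ (j + 1)} : Finset (Fin (m + 3))) =
        {σ i, σ (i + 1)} ∪ {σ j, σ (j + 1)} := by
      ext z
      simp only [Finset.mem_insert, Finset.mem_singleton, Finset.mem_union]
      tauto
    have ht : ((σ i, σ (i + 1)), (σ j, σ (j + 1))) ∈ tup F := by
      refine mem_tup.mpr ?_
      rw [← hset] at hmem
      exact hmem
    have hp : (i, j) ∈ posPairs m :=
      Finset.mem_filter.mpr ⟨Finset.mem_univ _, hij, hne1, hne2⟩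
    have hxE : ((i, j), ((σ i, σ (i + 1)), (σ j, σ (j + 1)))) ∈ events F :=
      Finset.mem_product.mpr ⟨hp, ht⟩
    apply hσ _ hxE
    refine mem_ev.mpr ?_
    intro k
    fin_cases k <;> rfl
  refine ⟨_, permCycle σ, permCycle_ham σ, ?_⟩
  intro e he f hf hdis hmem
  obtain ⟨i, hi⟩ := permCycle_edge σ e he
  obtain ⟨j, hj⟩ := permCycle_edge σ f hf
  rw [hi, hj] at hdis hmem
  rcases lt_trichotomy i j with h | h | h
  · exact main i j h hdis hmem
  · subst h
    exact (Finset.disjoint_left.mp hdis (Finset.mem_insert_self _ _))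
      (Finset.mem_insert_self _ _)
  · refine main j i h hdis.symm ?_
    rw [Finset.union_comm]
    exact hmem

theorem full_family {n : ℕ} (hn : 4 ≤ n) :
    ¬ HasAcceptableHamiltonCycle (Finset.powersetCard 4 (Finset.univ : Finset (Fin n))) := by
  rintro ⟨a, C, hC, hacc⟩
  have hlen : C.length = n := by rw [hC.length_eq, Fintype.card_fin]
  have hinj := hC.isCycle.getVert_injOn'
  have hne : ∀ i j : ℕ, i ≤ 3 → j ≤ 3 → i ≠ j → C.getVert i ≠ C.getVert j := by
    intro i j hi hj hij h
    exact hij (hinj (by simp only [Set.mem_ofPred_eq]; omega)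
      (by simp only [Set.mem_ofPred_eq]; omega) h)
  have he : s(C.getVert 0, C.getVert 1) ∈ C.edges := by
    rw [SimpleGraph.Walk.mk_mem_edges_iff_exists]
    exact ⟨0, by omega, rfl⟩
  have hf : s(C.getVert 2, C.getVert 3) ∈ C.edges := by
    rw [SimpleGraph.Walk.mk_mem_edges_iff_exists]
    exact ⟨2, by omega, rfl⟩
  have h01 := hne 0 1 (by omega) (by omega) (by omega)
  have h02 := hne 0 2 (by omega) (by omega) (by omega)
  have h03 := hne 0 3 (by omega) (by omega) (by omega)
  have h12 := hne 1 2 (by omega) (by omega) (by omega)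
  have h13 := hne 1 3 (by omega) (by omega) (by omega)
  have h23 := hne 2 3 (by omega) (by omega) (by omega)
  have hdis : Disjoint (s(C.getVert 0, C.getVert 1)).toFinset
      (s(C.getVert 2, C.getVert 3)).toFinset := by
    rw [Sym2.toFinset_mk_eq, Sym2.toFinset_mk_eq, Finset.disjoint_left]
    intro x hx hx'
    simp only [Finset.mem_insert, Finset.mem_singleton] at hx hx'
    rcases hx with rfl | rfl <;> rcases hx' with h | h
    · exact h02 h
    · exact h03 h
    · exact h12 h
    · exact h13 h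
  apply hacc _ he _ hf hdis
  rw [Finset.mem_powersetCard]
  refine ⟨Finset.subset_univ _, ?_⟩
  rw [Finset.card_union_of_disjoint hdis, Sym2.toFinset_mk_eq, Sym2.toFinset_mk_eq,
    Finset.card_pair h01, Finset.card_pair h23]

theorem lower_bound {n : ℕ} (hn : 4 ≤ n) : n < 118 * m₂ n := by
  have hne : {d : ℕ | ∃ F : Finset (Finset (Fin n)),
      (∀ A ∈ F, A.card = 4) ∧ ¬ HasAcceptableHamiltonCycle F ∧ d₂ F = d}.Nonempty :=
    ⟨_, Finset.powersetCard 4 Finset.univ,
      fun A hA => (Finset.mem_powersetCard.mp hA).2, full_family hn, rfl⟩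
  obtain ⟨F, hF4, hF, hFd⟩ := Nat.sInf_mem hne
  by_contra hcon
  push Not at hcon
  apply hF
  obtain ⟨m, rfl⟩ : ∃ m, n = m + 3 := ⟨n - 3, by omega⟩
  refine exists_of_small (by omega) F hF4 ?_
  rw [hFd]
  exact hcon

end Pool.Agent.Lib_MP_626dc7_co
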